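import Pool.Agent.X27.Chr.Dade

/-!
# Dade's conjecture with an error term

Let `ℓ` be a prime and `M` a maximal ideal over `ℓ` of the ring of all algebraic integers in `ℂ`.
* For `χ ∈ Irr(G)` let `om χ g` be the scalar by which the sum of the conjugates of `g` acts. Two irreducible characters are
  in the same `ℓ`-block if and only if their `om` are congruent modulo `M`. So `Blk M (om χ)` is the block of `χ`.
* For `H ≤ G` and `θ ∈ Irr(H)` let `ind H θ g` be the scalar by which the sum of the elements of `H` conjugate to `g` in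
  `G` acts. So `bl(θ)^G = B` if and only if `ind H θ` is congruent to `om χ` for `χ ∈ Irr(B)`.
* `x : DBlk ℓ M` is a finite group `G` with `O = O_ℓ(G) ≤ Z(G)`, together with a block `B` (that of `χ = x.chi`) whose
  defect groups are larger than `O`.
* `x.S Q` is the sum over the orbits of chains starting at `O` of `(-1)^n` times the number of `θ ∈ Irr(G_d)` of defect in
  `Q` with `bl(θ)^G = B`. (It is written as a sum over all chains, with the weight `|G_d| / |G|`, the inverse of the
  length of the orbit.) Dade's conjecture is `x.S {d} = 0` for all `x` and `d`.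

Theorem. Let `P` be a class of triples `(G, B, d)` closed under direct products with cyclic `ℓ`-groups `A`,
`(G, B, d) ↦ (G × A, B ⊗ ℤA, d + n)`, `|A| = ℓ^n`. Dade's conjecture holds on `P` if and only if the alternating sums on `P`
are `o(|G|)`.
-/

set_option autoImplicit false

namespace Pool.Agent.Results.MP_3f89b9_al.Additive

open Pool.Agent.X27.Chr

variable {ℓ : ℕ} [hℓ : Fact ℓ.Prime] {M : Ideal (integralClosure ℤ ℂ)}

/-- Closed under direct products with cyclic `ℓ`-groups. -/
def CycClosed (P : DBlk ℓ M → ℤ → Prop) : Prop := ∀ x d, P x d → ∀ n : ℕ, P (x.cyc n) (d + n)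

theorem result (ℓ : ℕ) (hℓ : Fact ℓ.Prime) (M : Ideal (integralClosure ℤ ℂ)) (hM : M.IsMaximal)
    (hl : (ℓ : integralClosure ℤ ℂ) ∈ M) (P : DBlk ℓ M → ℤ → Prop) (hP : CycClosed P) :
    (∀ x d, P x d → x.S {d} = 0) ↔ ∀ ε : ℝ, 0 < ε → ∃ N : ℕ, ∀ x d, P x d → N ≤ Nat.card x.G →
      |x.S {d}| ≤ ε * Nat.card x.G := by
  refine iff_small hM.isPrime hl P (fun d => {d}) (fun x d hx n => ⟨d + n, hP x d hx n, ?_⟩)
  rw [Set.image_singleton]

end Pool.Agent.Results.MP_3f89b9_al.Additive
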