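import Pool.Agent.X163.AB3

/-!
# Dade's conjecture: almost all blocks suffice

Let `ℓ` be a prime and `M` a maximal ideal over `ℓ` of the ring of all algebraic integers in `ℂ`. For `χ ∈ Irr(G)` let
`om χ` be the central character; `Blk M (om χ)` is the set of the irreducible characters in the `ℓ`-block of `χ`.

`x : GO ℓ` is a finite group `G` with `O = O_ℓ(G)` in the centre. For a block `B` of `G`, given by a character `χ` in it, and an
integer `d`, Dade's alternating sum `∑ (-1)^|𝐝| k^d(B_𝐝)` over the orbits of the chains of `ℓ`-subgroups which start at `O` is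
`alt ℓ M O (om χ) {d}` (the sum over all chains, each with weight `|G_𝐝| / |G|`). The defect groups of `B` are larger than `O`
if and only if some character in `B` has defect larger than `log_ℓ |O|` (`Big`). `DadeEq M d x`: the sum is `0` for all such
blocks `B`. `badD M d x` is the number of the blocks `B` of `G` with defect groups larger than `O` for which it is not `0`.

Theorem. Let `q > 1` be prime to `ℓ` and `P` a class of finite groups `G` with `O_ℓ(G) ≤ Z(G)`, closed under `G ↦ G × C_q`.
Then Dade's conjecture holds for all groups in `P` (all blocks and all `d`) if and only if for every `ε > 0` and every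
`d` the number of the blocks of `G` for which the alternating sum is not `0` is at most `ε |G|` for all large `G` in `P`.
-/

set_option autoImplicit false

namespace Pool.Agent.Results.MP_3f89b9_al.AlmostAllBlocks

open Pool.Agent.X27.Chr Pool.Agent.X163.AB

theorem result (ℓ : ℕ) (hℓ : Fact ℓ.Prime) (M : Ideal (integralClosure ℤ ℂ)) (hM : M.IsMaximal)
    (hl : (ℓ : integralClosure ℤ ℂ) ∈ M) (q : ℕ) (hq1 : 1 < q) (hq : ¬ ℓ ∣ q) [NeZero q]
    (P : GO ℓ → Prop) (hP : ∀ x, P x → P (x.mul q hq)) :
    (∀ x, P x → ∀ d : ℤ, DadeEq M d x) ↔ ∀ ε : ℝ, 0 < ε → ∀ d : ℤ, ∃ N : ℕ, ∀ x, P x →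
      N ≤ Nat.card x.G → (badD M d x : ℝ) ≤ ε * Nat.card x.G :=
  mainD hM.isPrime hl q hq1 hq P hP

end Pool.Agent.Results.MP_3f89b9_al.AlmostAllBlocks
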