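import Pool.Agent.X209.PJ.Cyc

/-!
# Dade's conjecture: it suffices to treat groups with cyclic `O_p(G)`

Dade's conjecture is about the finite groups `G` such that `A = O_p(G)` is central. We prove that it
follows, for a given group, from the conjecture for the quotients `G/Y`, `Y ≤ A`, with `A/Y` cyclic.
So it suffices to prove it for the groups `G` with `O_p(G)` central and cyclic.
-/

open scoped Classical
open Pool.Agent.Y63.NV (IsBlock)
open Pool.Agent.X209.PJ

noncomputable section

namespace Pool.Agent.Results.MP_3f89b9_al.CyclicCore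

/-- Dade's equations for `G` and its central `p`-subgroup `A`: all blocks `B` with a defect group
which contains `A` properly, and all defects `d`. -/
def Dade (p : ℕ) {F : Type} [Field F] (red : integralClosure ℤ ℂ →+* F) {G : Type} [Group G]
    (A : Subgroup G) : Prop :=
  ∀ B : (G → F) → F, IsBlock B → AboveDefect p A B → ∀ d : ℕ,
    altAbove p A (fun H => (kOrd p red B d H : ℤ)) = 0

/-- The equations for the quotients `G/Y`, `Y ≤ A`, with `A/Y` cyclic. -/
def DadeCyclic (p : ℕ) {F : Type} [Field F] (red : integralClosure ℤ ℂ →+* F) {G : Type}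
    [Group G] (A : Subgroup G) : Prop :=
  ∀ Y : Subgroup G, Y ≤ A → ∀ _ : Y.Normal, IsCyclic (A.map (QuotientGroup.mk' Y)) →
    Dade p red (A.map (QuotientGroup.mk' Y))

theorem dade_iff {p : ℕ} [Fact p.Prime] {F : Type} [Field F] [CharP F p]
    (red : integralClosure ℤ ℂ →+* F) {G : Type} [Group G] [Finite G] {A : Subgroup G}
    (hA : A ≤ Subgroup.center G) (hpA : IsPGroup p A) :
    Dade p red A ↔ DadeCentral red p A :=
  (off_iff red hA hpA (fun B d H => kOrd p red B d H) (fun B d H hne => kOrd_ne red hne)).symm

/-- The explicit formula for the alternating sum. -/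
def Formula (p : ℕ) {F : Type} [Field F] (red : integralClosure ℤ ℂ →+* F) {G : Type} [Group G]
    (A : Subgroup G) (B : (G → F) → F) (d : ℕ) : Prop :=
  ((altAbove p A (fun H => (kOrd p red B d H : ℤ)) : ℤ) : ℚ) =
    ∑ᶠ lam : A →* ℂˣ, (∑ m ∈ (orderOf lam).divisors, (ArithmeticFunction.moebius m : ℚ) *
      ((altAbove p A (fun H => (kTriv red p (kerG (lam ^ m)) B d H : ℤ)) : ℤ) : ℚ)) /
        (Nat.totient (orderOf lam) : ℚ)

/-- (1) Dade's equations for `G` and its central `p`-subgroup `A` follow from those for the
quotients `G/Y` with `A/Y` cyclic. (2) Dade's conjecture is equivalent to its restriction to the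
groups with cyclic `O_p(G)`. (3) An explicit formula. -/
theorem result (p : ℕ) [Fact p.Prime] (F : Type) [Field F] [CharP F p]
    (red : integralClosure ℤ ℂ →+* F) :
    (∀ (G : Type) [Group G] [Finite G] (A : Subgroup G), A ≤ Subgroup.center G → IsPGroup p A →
      (DadeCyclic p red A → Dade p red A) ∧ ∀ (B : (G → F) → F) (d : ℕ), Formula p red A B d) ∧
    ((∀ (G : Type) [Group G] [Finite G] (A : Subgroup G), A ≤ Subgroup.center G →
      IsCore p A → Dade p red A) ↔
      ∀ (G : Type) [Group G] [Finite G] (A : Subgroup G), A ≤ Subgroup.center G →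
        IsCore p A → IsCyclic A → Dade p red A) := by
  constructor
  · intro G _ _ A hA hpA
    refine ⟨?_, fun B d => cyclic_formula red hA hpA B d⟩
    intro h
    rw [dade_iff red hA hpA]
    apply central_of_cyclic red hA hpA
    intro Y hYA hY hcyc
    rw [← dade_iff red (map_center _ (QuotientGroup.mk'_surjective Y) hA) (hpA.map _)]
    exact h Y hYA hY hcyc
  · constructor
    · intro h G _ _ A hA hc _
      exact h G A hA hc
    · intro h G _ _ A hA hc
      rw [dade_iff red hA hc.pgroup]
      refine (cyclic_iff red).mpr ?_ G A hA hc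
      intro G' _ _ A' hA' hc' hcyc
      exact (dade_iff red hA' hc'.pgroup).mp (h G' A' hA' hc' hcyc)

end Pool.Agent.Results.MP_3f89b9_al.CyclicCore
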