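import Pool.Agent.X209.DP.Fin

/-!
# Dade's conjecture for groups with central `O_p(G)` and cyclic quotients of order prime to `p`

Let `G` be a normal subgroup of the finite group `E`, with `E / G` cyclic of order prime to `p`, such
that `A = O_p(G)` is central in `E`. We prove that Dade's equations for the groups `X` between `G` and
`E` (which also have `O_p(X) = A`) imply the invariant equations for `G` in `E`, for each block `B` of
`G` whose defect groups contain `A` properly, each defect `d` and each `U ≤ E`. So Dade's conjecture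
for all finite groups with central `O_p` is equivalent to its invariant form for these quotients.
-/

open scoped Classical

noncomputable section

namespace Pool.Agent.Results.MP_3f89b9_al.Invariant

open Pool.Agent.X209.DQ (Cov StB isoB_block kI kX)
open Pool.Agent.X209.PJ (IsCore kOrd altAbove AboveDefect)
open Pool.Agent.X209.NB (altC)
open Pool.Agent.X209.DP (kIl kXl tE kIl_one kXl_one kProj_one)
open Pool.Agent.Y63.NV (IsBlock)

/-- Dade's equations for `G` and its central `p`-subgroup `A`: all blocks `B` with a defect group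
which contains `A` properly, and all defects `d`. -/
def Dade (p : ℕ) {F : Type} [Field F] (red : integralClosure ℤ ℂ →+* F) {G : Type} [Group G]
    (A : Subgroup G) : Prop :=
  ∀ B : (G → F) → F, IsBlock B → AboveDefect p A B → ∀ d : ℕ,
    altAbove p A (fun H => (kOrd p red B d H : ℤ)) = 0

/-- Dade's invariant equations for the normal subgroup `G` of `E` and the `p`-subgroup `A` of the
centre of `E`: all blocks `B` of `G` with a defect group which contains `A` properly, all defects `d`
and all `U ≤ E`. -/
def InvDade (p : ℕ) {F : Type} [Field F] (red : integralClosure ℤ ℂ →+* F) {E : Type} [Group E]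
    (G A : Subgroup E) : Prop :=
  ∀ B : (G → F) → F, IsBlock B → AboveDefect p (A.subgroupOf G) B →
    ∀ (d : ℕ) (U : Subgroup E),
      altC p (A.subgroupOf G) (fun σ => (kI red p B d U σ : ℤ)) = 0

lemma gen_of_cyclic {E : Type} [Group E] {G : Subgroup E} [G.Normal] (h : IsCyclic (E ⧸ G)) :
    ∃ e₀ : E, G ⊔ Subgroup.zpowers e₀ = ⊤ := by
  obtain ⟨y, hy⟩ := h.exists_generator
  obtain ⟨e₀, rfl⟩ := QuotientGroup.mk_surjective y
  refine ⟨e₀, eq_top_iff.mpr fun x _ => ?_⟩
  obtain ⟨k, hk⟩ := hy (QuotientGroup.mk x)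
  have h1 : (QuotientGroup.mk (e₀ ^ k) : E ⧸ G) = QuotientGroup.mk x := hk
  have h2 : (e₀ ^ k)⁻¹ * x ∈ G := QuotientGroup.eq.mp h1
  have h3 : x = e₀ ^ k * ((e₀ ^ k)⁻¹ * x) := by group
  rw [h3]
  exact Subgroup.mul_mem _
    ((le_sup_right : Subgroup.zpowers e₀ ≤ G ⊔ Subgroup.zpowers e₀)
      (Subgroup.zpow_mem _ (Subgroup.mem_zpowers e₀) k))
    ((le_sup_left : G ≤ G ⊔ Subgroup.zpowers e₀) h2)

lemma cyclic_top (E : Type) [Group E] : IsCyclic (E ⧸ (⊤ : Subgroup E)) := by
  refine ⟨⟨1, fun y => ?_⟩⟩
  obtain ⟨x, rfl⟩ := QuotientGroup.mk_surjective y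
  refine ⟨0, ?_⟩
  change (1 : E ⧸ (⊤ : Subgroup E)) ^ (0 : ℤ) = QuotientGroup.mk x
  rw [zpow_zero]
  exact ((QuotientGroup.eq_one_iff x).mpr (Subgroup.mem_top x)).symm

/-- Let `p` be a prime, `F` a field of characteristic `p` and `red` a ring homomorphism from the
algebraic integers to `F`.

(1) Dade's conjecture holds for all finite groups `H` with `O_p(H) ≤ Z(H)` if and only if its
invariant form holds for all finite groups `E` with a normal subgroup `G` such that `O_p(G)` is
central in `E` and `E / G` is cyclic of order prime to `p`.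

(2) Let `G` be normal in `E`, with `E / G` cyclic of order prime to `p`, and let `A ≤ G` be a subgroup
which is central in `E`. The equations for the groups `X` between `G` and `E`, above `A`, imply the
invariant equations for `G` in `E` above `A`.

(3) In (2), if `A = O_p(G)`, then `A = O_p(X)` for all these `X`.

(4) Let `B` be a block of `G` and `d` an integer. The invariant equations of `B` and `d` hold for all
`U` if and only if for all `X` between `G` and the stabiliser of `B` in `E` the alternating sum of the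
numbers of characters of defect `d` in blocks which induce blocks covering `B` is zero.

(5) The formula which expresses the alternating sum for `X` in (4) by the alternating sums for the
`U`. -/
theorem result (p : ℕ) [Fact p.Prime] (F : Type) [Field F] [CharP F p]
    (red : integralClosure ℤ ℂ →+* F) :
    ((∀ (H : Type) [Group H] [Finite H] (A : Subgroup H), A ≤ Subgroup.center H →
      IsCore p A → Dade p red A) ↔
      ∀ (E : Type) [Group E] [Finite E] (G : Subgroup E) [G.Normal], IsCyclic (E ⧸ G) →
        ¬ p ∣ G.index → ∀ A : Subgroup E, A ≤ G → A ≤ Subgroup.center E →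
          IsCore p (A.subgroupOf G) → InvDade p red G A) ∧
    ∀ (E : Type) [Group E] [Finite E] (G : Subgroup E) [G.Normal], IsCyclic (E ⧸ G) →
      ¬ p ∣ G.index → ∀ A : Subgroup E, A ≤ G → A ≤ Subgroup.center E →
      ((∀ X : Subgroup E, G ≤ X → Dade p red (A.subgroupOf X)) → InvDade p red G A) ∧
      (IsCore p (A.subgroupOf G) → ∀ X : Subgroup E, G ≤ X → IsCore p (A.subgroupOf X)) ∧
      ∀ (B : (G → F) → F) (d : ℕ), IsBlock B →
        ((∀ X : Subgroup E, G ≤ X → X ≤ StB G B →
          altC p (A.subgroupOf X) (fun τ => (kX red p B d τ : ℤ)) = 0) ↔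
          ∀ U : Subgroup E,
            altC p (A.subgroupOf G) (fun σ => (kI red p B d U σ : ℤ)) = 0) ∧
        ∀ X : Subgroup E, G ≤ X → X ≤ StB G B →
          (Nat.card G : ℤ) * ((Nat.card X : ℤ) *
            altC p (A.subgroupOf X) (fun τ => (kX red p B d τ : ℤ))) =
          ∑ᶠ U : Subgroup E, (Nat.card (U ⊓ X : Subgroup E) : ℤ) ^ 2 *
            altC p (A.subgroupOf G) (fun σ => (kI red p B d U σ : ℤ)) := by
  have mid : ∀ (E : Type) [Group E] [Finite E] (G : Subgroup E) [G.Normal], IsCyclic (E ⧸ G) →
      ¬ p ∣ G.index → ∀ A : Subgroup E, A ≤ G → A ≤ Subgroup.center E →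
      (∀ X : Subgroup E, G ≤ X → Dade p red (A.subgroupOf X)) → InvDade p red G A := by
    intro E _ _ G _ hcyc hidx A hA hAc h B hB hAB d
    have h1 := Pool.Agent.X209.DP.inv_of_proj red (1 : (⊥ : Subgroup E) →* ℂˣ) hidx
      (gen_of_cyclic hcyc) bot_le bot_le hA hAc (d := d) hB hAB
      (fun X hX _ B' hB' hAB' => by
        simp only [kProj_one]
        exact h X hX B' hB' hAB' d)
    simp only [kIl_one] at h1
    exact h1
  refine ⟨⟨?_, ?_⟩, ?_⟩
  · intro h E _ _ G _ hcyc hidx A hA hAc hcore
    refine mid E G hcyc hidx A hA hAc fun X hX => ?_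
    exact h X _ (Pool.Agent.X209.DP.center_sub hAc)
      (Pool.Agent.X209.DP.core_mid hidx hA hAc hcore hX)
  · intro h H _ _ A hA hcore B hB hAB d
    have h1 := h H ⊤ (cyclic_top H) (Pool.Agent.X209.DP.index_top_ndvd H) A le_top hA
      (Pool.Agent.X209.DP.core_top hcore)
      (Pool.Agent.X209.DQ.isoB (tE H) B) (isoB_block (tE H) hB)
      (Pool.Agent.X209.DP.above_top hAB) d ⊤
    have h2 := Pool.Agent.X209.DP.top_eq red (1 : (⊥ : Subgroup H) →* ℂˣ) bot_le hA
      hcore.pgroup B d
    simp only [kIl_one] at h2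
    rw [h2] at h1
    have h3 : ∀ S : Subgroup H, Pool.Agent.X209.PJ.kProj p red (1 : (⊥ : Subgroup H) →* ℂˣ) B d S =
        kOrd p red B d S := by
      intro S
      unfold Pool.Agent.X209.PJ.kProj kOrd
      refine Nat.card_congr (Equiv.subtypeEquivRight fun χ => ?_)
      have h4 : Pool.Agent.X209.PJ.Over (1 : (⊥ : Subgroup H) →* ℂˣ) χ := by
        intro a x y hxy
        have h5 : (a : H) = 1 := Subgroup.mem_bot.mp a.2
        rw [h5, one_mul] at hxy
        rw [Subtype.ext hxy]
        simp
      tauto
    simp only [h3] at h1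
    exact h1
  · intro E _ _ G _ hcyc hidx A hA hAc
    refine ⟨mid E G hcyc hidx A hA hAc, fun hcore X hX =>
      Pool.Agent.X209.DP.core_mid hidx hA hAc hcore hX, fun B d hB => ⟨?_, fun X hX hXV => ?_⟩⟩
    · have h1 := Pool.Agent.X209.DP.local_l (d := d) red bot_le (1 : (⊥ : Subgroup E) →* ℂˣ) hidx
        (gen_of_cyclic hcyc) hB bot_le hA hAc
      simp only [kIl_one, kXl_one] at h1
      exact h1
    · have h1 := Pool.Agent.X209.DP.formula_l (d := d) red bot_le (1 : (⊥ : Subgroup E) →* ℂˣ)
        hidx hX (gen_of_cyclic hcyc) hB hXV bot_le hA hAc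
      simp only [kIl_one, kXl_one] at h1
      exact h1

end Pool.Agent.Results.MP_3f89b9_al.Invariant
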